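import Pool.Agent.Lib.MP_adcce9_an.Space

/-!
Q2 of MP_adcce9_an: the space `X_f` contains no isometric copy of `c₀ ⊕₁ c₀`, and not even a
`D`-isomorphic copy with `D < 4/3`.
-/

set_option autoImplicit false

open scoped ENNReal ZeroAtInfty

namespace Pool.Agent.Results.MP_adcce9_an.NoC0SumC0

open Pool.Agent.Lib.MP_adcce9_an

section

variable {𝕜 : Type} [RCLike 𝕜]

/-- The unit vectors of `c₀`. -/
noncomputable def e (n : ℕ) : C₀(ℕ, 𝕜) where
  toFun := Pi.single n 1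
  continuous_toFun := continuous_of_discreteTopology
  zero_at_infty' := by
    rw [Filter.cocompact_eq_cofinite]
    refine tendsto_const_nhds.congr' ?_
    have : ∀ᶠ i in Filter.cofinite, i ≠ n := (Set.finite_singleton n).compl_mem_cofinite
    filter_upwards [this] with i hi
    rw [Pi.single_eq_of_ne hi]

lemma e_apply (n i : ℕ) : (e n : C₀(ℕ, 𝕜)) i = if i = n then 1 else 0 := by
  show (Pi.single n (1 : 𝕜) : ℕ → 𝕜) i = _
  rw [Pi.single_apply]

lemma norm_le_of {g : C₀(ℕ, 𝕜)} {r : ℝ} (hr : 0 ≤ r) (h : ∀ i, ‖g i‖ ≤ r) : ‖g‖ ≤ r := by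
  rw [← ZeroAtInftyContinuousMap.norm_toBCF_eq_norm]
  exact (BoundedContinuousFunction.norm_le hr).2 h

lemma le_norm (g : C₀(ℕ, 𝕜)) (i : ℕ) : ‖g i‖ ≤ ‖g‖ := by
  rw [← ZeroAtInftyContinuousMap.norm_toBCF_eq_norm]
  exact g.toBCF.norm_coe_le_norm i

lemma norm_e (n : ℕ) : ‖(e n : C₀(ℕ, 𝕜))‖ = 1 := by
  apply le_antisymm
  · apply norm_le_of zero_le_one
    intro i
    rw [e_apply]
    split_ifs <;> simp
  · have := le_norm (e n : C₀(ℕ, 𝕜)) n
    rwa [e_apply, if_pos rfl, norm_one] at this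

lemma norm_diff {n m : ℕ} (h : n < m) : ‖(e (n + 1) : C₀(ℕ, 𝕜)) - e (m + 1)‖ = 1 := by
  apply le_antisymm
  · apply norm_le_of zero_le_one
    intro i
    rw [ZeroAtInftyContinuousMap.sub_apply, e_apply, e_apply]
    split_ifs with h1 h2
    · omega
    · simp
    · simp
    · simp
  · have := le_norm ((e (n + 1) : C₀(ℕ, 𝕜)) - e (m + 1)) (n + 1)
    rwa [ZeroAtInftyContinuousMap.sub_apply, e_apply, e_apply, if_pos rfl,
      if_neg (by omega), sub_zero, norm_one] at this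

lemma norm_add_diff {n m : ℕ} (h : n < m) :
    ‖(e 0 : C₀(ℕ, 𝕜)) + (e (n + 1) - e (m + 1))‖ ≤ 1 := by
  apply norm_le_of zero_le_one
  intro i
  rw [ZeroAtInftyContinuousMap.add_apply, ZeroAtInftyContinuousMap.sub_apply, e_apply, e_apply,
    e_apply]
  split_ifs with h1 h2 h3 h4 h5 h6 <;> first | omega | simp

lemma norm_sub_diff {n m : ℕ} (h : n < m) :
    ‖(e 0 : C₀(ℕ, 𝕜)) - (e (n + 1) - e (m + 1))‖ ≤ 1 := by
  apply norm_le_of zero_le_one
  intro i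
  rw [ZeroAtInftyContinuousMap.sub_apply, ZeroAtInftyContinuousMap.sub_apply, e_apply, e_apply,
    e_apply]
  split_ifs with h1 h2 h3 h4 h5 h6 <;> first | omega | simp

end

/-- For every `f : ℕ → ℚ` (in particular for every bijection), over `𝕜 = ℝ` or `ℂ`: for
`D < 4/3` there is no linear map `T` from `c₀ ⊕₁ c₀` (`c₀ × c₀` with the sum norm) to `X_f`
with `‖z‖ ≤ ‖T z‖ ≤ D ‖z‖` for all `z`. The case `D = 1` says that `X_f` contains no isometric
copy of `c₀ ⊕₁ c₀`. -/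
theorem result {𝕜 : Type} [RCLike 𝕜] (f : ℕ → ℚ) (D : ℝ) (hD : D < 4 / 3) :
    ¬ ∃ T : WithLp 1 (C₀(ℕ, 𝕜) × C₀(ℕ, 𝕜)) →ₗ[𝕜] XSpace 𝕜 f,
      ∀ z, ‖z‖ ≤ ‖T z‖ ∧ ‖T z‖ ≤ D * ‖z‖ := by
  rintro ⟨T, hT⟩
  -- the two coordinate embeddings
  have nrm : ∀ z w : C₀(ℕ, 𝕜), ‖(WithLp.toLp 1 (z, w) : WithLp 1 (C₀(ℕ, 𝕜) × C₀(ℕ, 𝕜)))‖ =
      ‖z‖ + ‖w‖ := fun z w => WithLp.prod_norm_eq_of_L1 _
  have upper : ∀ z w : C₀(ℕ, 𝕜), ‖T (WithLp.toLp 1 (z, w))‖ ≤ D * (‖z‖ + ‖w‖) := by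
    intro z w
    rw [← nrm]
    exact (hT _).2
  have lower : ∀ z w : C₀(ℕ, 𝕜), ‖z‖ + ‖w‖ ≤ ‖T (WithLp.toLp 1 (z, w))‖ := by
    intro z w
    rw [← nrm]
    exact (hT _).1
  have hD0 : 0 ≤ D := by
    have h1 := lower (e 0) 0
    have h2 := upper (e 0) 0
    rw [norm_e, norm_zero] at h1 h2
    linarith
  have hsub : ∀ z w z' w' : C₀(ℕ, 𝕜), T (WithLp.toLp 1 (z, w)) - T (WithLp.toLp 1 (z', w')) =
      T (WithLp.toLp 1 (z - z', w - w')) := by
    intro z w z' w'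
    rw [← map_sub, ← WithLp.toLp_sub, Prod.mk_sub_mk]
  have hadd : ∀ z w z' w' : C₀(ℕ, 𝕜), T (WithLp.toLp 1 (z, w)) + T (WithLp.toLp 1 (z', w')) =
      T (WithLp.toLp 1 (z + z', w + w')) := by
    intro z w z' w'
    rw [← map_add, ← WithLp.toLp_add, Prod.mk_add_mk]
  have up1 : ∀ z : C₀(ℕ, 𝕜), ‖z‖ ≤ 1 → ‖T (WithLp.toLp 1 (z, 0))‖ ≤ D := by
    intro z hz
    have := upper z 0
    rw [norm_zero, add_zero] at this
    nlinarith
  have up2 : ∀ z : C₀(ℕ, 𝕜), ‖z‖ ≤ 1 → ‖T (WithLp.toLp 1 (0, z))‖ ≤ D := by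
    intro z hz
    have := upper 0 z
    rw [norm_zero, zero_add] at this
    nlinarith
  have key := obstruction (f := f) (T (WithLp.toLp 1 (e 0, 0))) (T (WithLp.toLp 1 (0, e 0)))
    (fun n => T (WithLp.toLp 1 (0, e (n + 1)))) (fun n => T (WithLp.toLp 1 (e (n + 1), 0)))
    (K := D) (k := 1) (M := D)
    (fun n => up2 _ (norm_e _).le) (fun n => up1 _ (norm_e _).le)
    (up1 _ (norm_e _).le) (up2 _ (norm_e _).le)
    (fun n m h => by
      rw [hsub, sub_zero]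
      exact up2 _ (norm_diff h).le)
    (fun n m h => by
      rw [hsub, sub_zero]
      exact up1 _ (norm_diff h).le)
    (fun n m h => by
      rw [hsub, hadd, sub_zero, add_zero]
      exact up1 _ (norm_add_diff h))
    (fun n m h => by
      rw [hsub, hsub, sub_zero, sub_zero]
      exact up1 _ (norm_sub_diff h))
    (fun n m h => by
      rw [hsub, hadd, sub_zero, add_zero]
      exact up2 _ (norm_add_diff h))
    (fun n m h => by
      rw [hsub, hsub, sub_zero, sub_zero]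
      exact up2 _ (norm_sub_diff h))
    (fun n m h => by
      rw [hsub, hadd, sub_zero, add_zero, zero_add]
      refine le_trans ?_ (lower _ _)
      rw [norm_e, norm_diff h]
      norm_num)
    (fun n m h => by
      rw [hsub, hadd, sub_zero, add_zero, zero_add]
      refine le_trans ?_ (lower _ _)
      rw [norm_e, norm_diff h]
      norm_num)
  linarith

end Pool.Agent.Results.MP_adcce9_an.NoC0SumC0
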