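import Pool.Agent.Lib.MP_adcce9_an.Space

/-!
Q1 of MP_adcce9_an: the space `X_f` contains no isometric copy of `ℓ₁ ⊕₀ ℓ₁`, and not even a
`D`-isomorphic copy with `D < 4/3`.
-/

set_option autoImplicit false

open scoped ENNReal

namespace Pool.Agent.Results.MP_adcce9_an.NoEll1SupEll1

open Pool.Agent.Lib.MP_adcce9_an

/-- The Banach space `ℓ₁` of scalar sequences (Mathlib's `lp (fun _ : ℕ => 𝕜) 1`). -/
def Ell1 (𝕜 : Type) [RCLike 𝕜] : Type := lp (fun _ : ℕ => 𝕜) 1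

section

variable {𝕜 : Type} [RCLike 𝕜]

noncomputable instance instNormedAddCommGroupEll1 : NormedAddCommGroup (Ell1 𝕜) :=
  (inferInstance : NormedAddCommGroup (lp (fun _ : ℕ => 𝕜) 1))

noncomputable instance instNormedSpaceEll1 : NormedSpace 𝕜 (Ell1 𝕜) :=
  (inferInstance : NormedSpace 𝕜 (lp (fun _ : ℕ => 𝕜) 1))

/-- The unit vectors of `ℓ₁`. -/
noncomputable def e (n : ℕ) : Ell1 𝕜 := (lp.single 1 n (1 : 𝕜) : lp (fun _ : ℕ => 𝕜) 1)

lemma norm_comb (s : Finset ℕ) (a : ℕ → 𝕜) :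
    ‖∑ i ∈ s, a i • (e i : Ell1 𝕜)‖ = ∑ i ∈ s, ‖a i‖ := by
  have h := lp.norm_sum_single (p := 1) (E := fun _ : ℕ => 𝕜) (by simp) a s
  simp only [ENNReal.toReal_one, Real.rpow_one] at h
  rw [← h]
  congr 1
  apply Finset.sum_congr rfl
  intro i _
  show a i • (lp.single 1 i (1 : 𝕜) : lp (fun _ : ℕ => 𝕜) 1) = _
  rw [← lp.single_smul, smul_eq_mul, mul_one]

lemma norm_e (n : ℕ) : ‖(e n : Ell1 𝕜)‖ = 1 := by
  have := norm_comb (𝕜 := 𝕜) {n} (fun _ => 1)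
  simpa using this

lemma norm_diff {n m : ℕ} (h : n < m) :
    ‖(2⁻¹ : 𝕜) • (e (n + 1) : Ell1 𝕜) - (2⁻¹ : 𝕜) • e (m + 1)‖ = 1 := by
  have h1 : (n + 1 : ℕ) ≠ m + 1 := by omega
  have := norm_comb (𝕜 := 𝕜) {n + 1, m + 1} (fun i => if i = n + 1 then 2⁻¹ else -2⁻¹)
  rw [Finset.sum_pair h1, Finset.sum_pair h1] at this
  simp only [if_true, if_neg h1.symm, neg_smul, norm_neg, norm_inv, RCLike.norm_ofNat] at this
  rw [sub_eq_add_neg, this]
  norm_num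

lemma norm_add_diff {n m : ℕ} (h : n < m) :
    ‖(e 0 : Ell1 𝕜) + ((2⁻¹ : 𝕜) • e (n + 1) - (2⁻¹ : 𝕜) • e (m + 1))‖ = 2 := by
  have h1 : (n + 1 : ℕ) ≠ m + 1 := by omega
  have h0 : (0 : ℕ) ∉ ({n + 1, m + 1} : Finset ℕ) := by simp
  have := norm_comb (𝕜 := 𝕜) (insert 0 {n + 1, m + 1})
    (fun i => if i = 0 then 1 else if i = n + 1 then 2⁻¹ else -2⁻¹)
  rw [Finset.sum_insert h0, Finset.sum_insert h0, Finset.sum_pair h1, Finset.sum_pair h1] at this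
  simp only [if_true, if_neg h1.symm, if_neg (Nat.succ_ne_zero n), if_neg (Nat.succ_ne_zero m),
    neg_smul, norm_neg, norm_inv, RCLike.norm_ofNat, one_smul, norm_one] at this
  rw [sub_eq_add_neg, this]
  norm_num

end

/-- For every `f : ℕ → ℚ` (in particular for every bijection), over `𝕜 = ℝ` or `ℂ`: for
`D < 4/3` there is no linear map `T` from `ℓ₁ ⊕₀ ℓ₁` (`ℓ₁ × ℓ₁` with the maximum norm) to `X_f`
with `‖z‖ ≤ ‖T z‖ ≤ D ‖z‖` for all `z`. The case `D = 1` says that `X_f` contains no isometric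
copy of `ℓ₁ ⊕₀ ℓ₁`. -/
theorem result {𝕜 : Type} [RCLike 𝕜] (f : ℕ → ℚ) (D : ℝ) (hD : D < 4 / 3) :
    ¬ ∃ T : (Ell1 𝕜 × Ell1 𝕜) →ₗ[𝕜] XSpace 𝕜 f,
      ∀ z, ‖z‖ ≤ ‖T z‖ ∧ ‖T z‖ ≤ D * ‖z‖ := by
  rintro ⟨T, hT⟩
  have hD0 : 0 ≤ D := by
    have h := hT (e 0, 0)
    have h1 : ‖((e 0 : Ell1 𝕜), (0 : Ell1 𝕜))‖ = 1 := by
      rw [Prod.norm_mk, norm_e, norm_zero]; norm_num
    rw [h1] at h
    linarith [h.1, h.2]
  have upper : ∀ z w : Ell1 𝕜, ‖z‖ ≤ 1 → ‖w‖ ≤ 1 → ‖T (z, w)‖ ≤ D := by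
    intro z w hz hw
    refine (hT (z, w)).2.trans ?_
    have : ‖((z, w) : Ell1 𝕜 × Ell1 𝕜)‖ ≤ 1 := by
      rw [Prod.norm_mk]; exact max_le hz hw
    nlinarith
  have hhalf : ∀ n : ℕ, ‖(2⁻¹ : 𝕜) • (e (n + 1) : Ell1 𝕜)‖ ≤ 1 := by
    intro n
    rw [norm_smul, norm_e, norm_inv, RCLike.norm_ofNat]
    norm_num
  have hz : ‖(0 : Ell1 𝕜)‖ ≤ 1 := by rw [norm_zero]; norm_num
  have he : ‖(e 0 : Ell1 𝕜)‖ ≤ 1 := (norm_e 0).le
  have key := obstruction (f := f) (T (e 0, 0)) (T (0, e 0))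
    (fun n => T ((2⁻¹ : 𝕜) • e (n + 1), 0)) (fun n => T (0, (2⁻¹ : 𝕜) • e (n + 1)))
    (K := D) (k := 1) (M := D)
    (fun n => upper _ _ (hhalf n) hz) (fun n => upper _ _ hz (hhalf n))
    (upper _ _ he hz) (upper _ _ hz he)
    (fun n m h => by
      rw [← map_sub, Prod.mk_sub_mk, sub_zero]
      exact upper _ _ (norm_diff h).le hz)
    (fun n m h => by
      rw [← map_sub, Prod.mk_sub_mk, sub_zero]
      exact upper _ _ hz (norm_diff h).le)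
    (fun n m h => by
      rw [← map_sub, ← map_add, Prod.mk_sub_mk, Prod.mk_add_mk, sub_zero, add_zero, zero_add]
      exact upper _ _ he (norm_diff h).le)
    (fun n m h => by
      rw [← map_sub, ← map_sub, Prod.mk_sub_mk, Prod.mk_sub_mk, sub_zero, sub_zero, zero_sub]
      exact upper _ _ he (by rw [norm_neg]; exact (norm_diff h).le))
    (fun n m h => by
      rw [← map_sub, ← map_add, Prod.mk_sub_mk, Prod.mk_add_mk, sub_zero, add_zero, zero_add]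
      exact upper _ _ (norm_diff h).le he)
    (fun n m h => by
      rw [← map_sub, ← map_sub, Prod.mk_sub_mk, Prod.mk_sub_mk, sub_zero, sub_zero, zero_sub]
      exact upper _ _ (by rw [norm_neg]; exact (norm_diff h).le) he)
    (fun n m h => by
      rw [← map_sub, ← map_add, Prod.mk_sub_mk, Prod.mk_add_mk, sub_zero, add_zero]
      refine le_trans ?_ (hT _).1
      rw [Prod.norm_mk, norm_add_diff h, norm_zero]
      norm_num)
    (fun n m h => by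
      rw [← map_sub, ← map_add, Prod.mk_sub_mk, Prod.mk_add_mk, sub_zero, add_zero]
      refine le_trans ?_ (hT _).1
      rw [Prod.norm_mk, norm_add_diff h, norm_zero]
      norm_num)
  linarith

end Pool.Agent.Results.MP_adcce9_an.NoEll1SupEll1
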